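import Pool.Agent.Run7.h62.RV.Iface

/-! Piece `CNT` of the project of helper62 (MP_620441_co): the constants at the moment curve. -/

set_option autoImplicit false

namespace Pool.Agent.Run7.h62.RV

open Finset

open scoped Classical

namespace CNT

theorem mem_chg {m : ℕ} (T : Finset (Fin (m + 1))) (c : Fin m) :
    c ∈ chg T ↔ ¬ (c.castSucc ∈ T ↔ c.succ ∈ T) := by
  unfold chg
  simp

theorem sgn_sq {s : ℕ} (T : Finset (Fin s)) (i : Fin s) : sgn T i * sgn T i = 1 := by
  unfold sgn; split_ifs <;> norm_num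

theorem sgn_succ {m : ℕ} (T : Finset (Fin (m + 1))) (c : Fin m) :
    sgn T c.succ = sgn T c.castSucc * (if c ∈ chg T then (-1 : ℝ) else 1) := by
  have h := mem_chg T c
  unfold sgn
  by_cases h1 : c.castSucc ∈ T <;> by_cases h2 : c.succ ∈ T <;> simp [h1, h2, h]

theorem prefix_prod {m : ℕ} (T : Finset (Fin (m + 1))) (i : Fin (m + 1)) :
    sgn T i = sgn T 0 * ∏ c : Fin m, (if c.castSucc < i then
      (if c ∈ chg T then (-1 : ℝ) else 1) else 1) := by
  induction i using Fin.induction with
  | zero => simp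
  | succ i ih =>
    rw [sgn_succ, ih, mul_assoc]
    congr 1
    have h1 : (if i ∈ chg T then (-1 : ℝ) else 1) =
        ∏ c : Fin m, (if c = i then (if c ∈ chg T then (-1 : ℝ) else 1) else 1) := by
      rw [Finset.prod_ite_eq' univ i]; simp
    rw [h1, ← Finset.prod_mul_distrib]
    refine Finset.prod_congr rfl fun c _ => ?_
    rcases lt_trichotomy c i with h | h | h
    · have h2 : c.castSucc < i.castSucc := by simpa using h
      have h3 : c.castSucc < i.succ := h2.trans (Fin.castSucc_lt_succ)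
      simp [h2, h3, h.ne]
    · subst h
      simp
    · have h2 : ¬ c.castSucc < i.castSucc := by simpa using h.le
      have h3 : ¬ c.castSucc < i.succ := by
        simp only [Fin.lt_def, Fin.val_castSucc, Fin.val_succ] at h ⊢
        omega
      simp [h2, h3, h.ne']

theorem key {m : ℕ} (f : Finset (Fin m) → ℝ) :
    ∑ T : Finset (Fin (m + 1)), f (chg T) = 2 * ∑ C : Finset (Fin m), f C := by
  have hinj : Function.Injective
      (fun T : Finset (Fin (m + 1)) => (decide ((0 : Fin (m + 1)) ∈ T), chg T)) := by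
    intro T T' h
    simp only [Prod.mk.injEq, decide_eq_decide] at h
    obtain ⟨h0, h1⟩ := h
    ext i
    induction i using Fin.induction with
    | zero => exact h0
    | succ i ih =>
      have h2 : i ∈ chg T ↔ i ∈ chg T' := by rw [h1]
      rw [mem_chg, mem_chg] at h2
      tauto
  have hbij : Function.Bijective
      (fun T : Finset (Fin (m + 1)) => (decide ((0 : Fin (m + 1)) ∈ T), chg T)) :=
    (Fintype.bijective_iff_injective_and_card _).2 ⟨hinj, by simp [pow_succ, mul_comm]⟩
  have h := hbij.sum_comp (fun p : Bool × Finset (Fin m) => f p.2)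
  simp only [Fintype.sum_prod_type, Fintype.sum_bool] at h
  rw [two_mul]
  exact h

/-- the product of two signs in terms of the changes -/
theorem sgn_mul {m : ℕ} (T : Finset (Fin (m + 1))) (i j : Fin (m + 1)) (hij : i ≤ j) :
    sgn T i * sgn T j =
      ∏ c ∈ chg T, (if i ≤ c.castSucc ∧ c.castSucc < j then (-1 : ℝ) else 1) := by
  rw [prefix_prod T i, prefix_prod T j]
  have h1 : ∀ a b c : ℝ, a * b * (a * c) = (a * a) * (b * c) := by intros; ring
  rw [h1, sgn_sq, one_mul, ← Finset.prod_mul_distrib]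
  have h2 : ∏ c ∈ chg T, (if i ≤ c.castSucc ∧ c.castSucc < j then (-1 : ℝ) else 1) =
      ∏ c : Fin m, (if c ∈ chg T then
        (if i ≤ c.castSucc ∧ c.castSucc < j then (-1 : ℝ) else 1) else 1) := by
    rw [Finset.prod_ite_mem, Finset.univ_inter]
  rw [h2]
  refine Finset.prod_congr rfl fun c _ => ?_
  by_cases hc : c ∈ chg T
  · by_cases ha : c.castSucc < i
    · have hb : c.castSucc < j := lt_of_lt_of_le ha hij
      have hn : ¬ i ≤ c.castSucc := not_le.2 ha
      simp [hc, ha, hb, hn]
    · have hn : i ≤ c.castSucc := not_lt.1 ha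
      by_cases hb : c.castSucc < j
      · simp [hc, ha, hb, hn]
      · simp [hc, ha, hb]
  · simp [hc]

theorem tail {m : ℕ} (ε : Fin m → ℝ) (c0 : Fin m) (h0 : ε c0 = -1) (d : ℕ) :
    ∑ C : Finset (Fin m), (if d < C.card then ∏ c ∈ C, ε c else 0) =
      - ∑ C ∈ powersetCard d (univ.erase c0), ∏ c ∈ C, ε c := by
  have h1 : (univ : Finset (Finset (Fin m))) = (insert c0 (univ.erase c0)).powerset := by
    rw [Finset.insert_erase (mem_univ _)]; simp
  rw [h1, Finset.sum_powerset_insert (by simp), ← Finset.sum_add_distrib]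
  have h2 : powersetCard d (univ.erase c0) =
      (univ.erase c0).powerset.filter (fun C => C.card = d) := by
    ext C; simp [mem_powersetCard]
  rw [h2, Finset.sum_filter, ← Finset.sum_neg_distrib]
  refine Finset.sum_congr rfl fun C hC => ?_
  have hc : c0 ∉ C := fun h => by
    have := (Finset.mem_powerset.1 hC) h
    simp at this
  rw [Finset.card_insert_of_notMem hc, Finset.prod_insert hc, h0]
  rcases lt_trichotomy d C.card with h | h | h
  · have h3 : d < C.card + 1 := by omega
    simp [h, h3, h.ne']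
  · have h3 : ¬ d < C.card := by omega
    have h4 : d < C.card + 1 := by omega
    simp [h.symm]
  · have h3 : ¬ d < C.card := by omega
    have h4 : ¬ d < C.card + 1 := by omega
    simp [h3, h4, h.ne]

theorem count {m d : ℕ} :
    ∑ C : Finset (Fin m), (if d < C.card then (1 : ℝ) else 0) = tau (m + 1) d := by
  have h1 : (univ : Finset (Finset (Fin m))) = (univ : Finset (Fin m)).powerset := by simp
  have h2 : ∀ C : Finset (Fin m), (if d < C.card then (1 : ℝ) else 0) =
      1 - (if C.card ≤ d then 1 else 0) := by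
    intro C
    by_cases h : d < C.card
    · simp [h, not_le.2 h]
    · simp [h, not_lt.1 h]
  simp only [h2]
  rw [Finset.sum_sub_distrib, h1]
  have h3 := Finset.sum_powerset_apply_card (fun k => if k ≤ d then (1 : ℝ) else 0)
    (x := (univ : Finset (Fin m)))
  rw [h3]
  unfold tau
  simp only [Finset.sum_const, Finset.card_powerset, Finset.card_univ, Fintype.card_fin,
    nsmul_eq_mul, mul_one, add_tsub_cancel_right]
  congr 1
  · push_cast; rfl
  · have h4 : ∑ k ∈ range (m + 1), ((m.choose k : ℕ) : ℝ) * (if k ≤ d then (1 : ℝ) else 0) =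
        ∑ k ∈ range (m + 1) ∩ range (d + 1), ((m.choose k : ℕ) : ℝ) := by
      rw [← Finset.filter_mem_eq_inter, Finset.sum_filter]
      refine Finset.sum_congr rfl fun k _ => ?_
      by_cases h : k ≤ d
      · simp [h, Nat.lt_succ_of_le h]
      · have : ¬ k < d + 1 := by omega
        simp [h, this]
    rw [h4]
    refine Finset.sum_subset Finset.inter_subset_right fun k hk hk' => ?_
    have : m < k := by
      by_contra hcon
      exact hk' (Finset.mem_inter.2 ⟨Finset.mem_range.2 (by omega), hk⟩)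
    rw [Nat.choose_eq_zero_of_lt this]; simp

/-- the sums over the nonseparable patterns -/
theorem sum_NS {m d : ℕ}
    (hS : ∀ T : Finset (Fin (m + 1)), Sep (lift (mom (m + 1) d)) univ T ↔ (chg T).card ≤ d)
    (g : Finset (Fin (m + 1)) → ℝ) (f : Finset (Fin m) → ℝ) (h : ∀ T, g T = f (chg T)) :
    ∑ T ∈ NS (lift (mom (m + 1) d)) univ, g T =
      2 * ∑ C : Finset (Fin m), (if d < C.card then f C else 0) := by
  rw [← key]
  unfold NS
  rw [Finset.sum_filter]
  simp only [Finset.powerset_univ]
  refine Finset.sum_congr rfl fun T _ => ?_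
  rw [hS T, h T]
  by_cases hT : d < (chg T).card
  · simp [hT, not_le.2 hT]
  · simp [hT, not_lt.1 hT]

/-- the signs at a pair -/
theorem pair_left {m d : ℕ}
    (hS : ∀ T : Finset (Fin (m + 1)), Sep (lift (mom (m + 1) d)) univ T ↔ (chg T).card ≤ d)
    (i j : Fin (m + 1)) (hij : i < j) :
    ∑ T ∈ NS (lift (mom (m + 1) d)) univ, sgn T i * sgn T j =
      - 2 * ∑ K ∈ powersetCard d ((univ.erase j).erase i),
        ∏ k ∈ K, (if i < k ∧ k < j then (-1 : ℝ) else 1) := by
  rw [sum_NS hS _ (fun C => ∏ c ∈ C, (if i ≤ c.castSucc ∧ c.castSucc < j then (-1 : ℝ) else 1))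
    (fun T => sgn_mul T i j hij.le)]
  have hi : i.val < m := by have := j.isLt; have := Fin.lt_def.1 hij; omega
  set c0 : Fin m := ⟨i.val, hi⟩ with hc0
  have hc : c0.castSucc = i := by ext; simp [hc0]
  rw [tail _ c0 (by rw [hc]; simp [hij])]
  have hmap : (univ.erase j).erase i = (univ.erase c0).map j.succAboveEmb := by
    ext k
    simp only [Finset.mem_erase, Finset.mem_univ, and_true, Finset.mem_map,
      Fin.succAboveEmb_apply]
    constructor
    · rintro ⟨h1, h2⟩
      obtain ⟨c, rfl⟩ := Fin.exists_succAbove_eq h2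
      refine ⟨c, fun h => h1 ?_, rfl⟩
      rw [h, Fin.succAbove_of_castSucc_lt _ _ (by rw [hc]; exact hij), hc]
    · rintro ⟨c, h1, rfl⟩
      refine ⟨fun h => h1 ?_, Fin.succAbove_ne _ _⟩
      have h2 : j.succAbove c = j.succAbove c0 := by
        rw [h, Fin.succAbove_of_castSucc_lt _ _ (by rw [hc]; exact hij), hc]
      exact Fin.succAbove_right_injective h2
  rw [hmap, Finset.powersetCard_map, Finset.sum_map]
  rw [mul_neg, neg_mul]
  congr 2
  refine Finset.sum_congr rfl fun C hC => ?_
  simp only [RelEmbedding.coe_toEmbedding, Finset.mapEmbedding_apply, Finset.prod_map, Fin.succAboveEmb_apply]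
  refine Finset.prod_congr rfl fun c hcC => ?_
  have hne : c ≠ c0 := by
    have := (Finset.mem_powersetCard.1 hC).1 hcC
    exact (Finset.mem_erase.1 this).1
  have hne' : c.val ≠ i.val := fun h => hne (by ext; simpa [hc0] using h)
  have hlt := Fin.lt_def.1 hij
  by_cases h : c.castSucc < j
  · rw [Fin.succAbove_of_castSucc_lt _ _ h]
    have h1 : (i ≤ c.castSucc ∧ c.castSucc < j) ↔ (i < c.castSucc ∧ c.castSucc < j) := by
      simp only [Fin.le_def, Fin.lt_def, Fin.val_castSucc]
      omega
    simp only [h1]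
  · rw [Fin.succAbove_of_le_castSucc _ _ (not_lt.1 h)]
    have h1 : ¬ (i ≤ c.castSucc ∧ c.castSucc < j) := fun h' => h h'.2
    have h2 : ¬ (i < c.succ ∧ c.succ < j) := by
      simp only [Fin.lt_def, Fin.val_castSucc, Fin.val_succ] at h ⊢
      omega
    simp only [h1, h2]

/-- the rank of `i` in `J` -/
theorem sgn_even {s : ℕ} (J : Finset (Fin s)) (i : Fin s) (hi : i ∈ J) :
    sgn (J.filter (fun i => Even (J.filter (fun j => j < i)).card)) i =
      (-1 : ℝ) ^ (J.filter (fun j => j < i)).card := by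
  unfold sgn
  by_cases h : Even (J.filter (fun j => j < i)).card
  · rw [if_pos (Finset.mem_filter.2 ⟨hi, h⟩), h.neg_one_pow]
  · have h1 : i ∉ J.filter (fun i => Even (J.filter (fun j => j < i)).card) :=
      fun h' => h (Finset.mem_filter.1 h').2
    rw [if_neg h1, (Nat.not_even_iff_odd.1 h).neg_one_pow]

theorem sgn_odd {s : ℕ} (J : Finset (Fin s)) (i : Fin s) (hi : i ∈ J) :
    sgn (J.filter (fun i => ¬ Even (J.filter (fun j => j < i)).card)) i =
      - (-1 : ℝ) ^ (J.filter (fun j => j < i)).card := by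
  unfold sgn
  by_cases h : Even (J.filter (fun j => j < i)).card
  · have h1 : i ∉ J.filter (fun i => ¬ Even (J.filter (fun j => j < i)).card) :=
      fun h' => (Finset.mem_filter.1 h').2 h
    rw [if_neg h1, h.neg_one_pow]
  · rw [if_pos (Finset.mem_filter.2 ⟨hi, h⟩), (Nat.not_even_iff_odd.1 h).neg_one_pow, neg_neg]

theorem even_ne_odd {s : ℕ} (J : Finset (Fin s)) (hJ : J.Nonempty) :
    J.filter (fun i => Even (J.filter (fun j => j < i)).card) ≠
      J.filter (fun i => ¬ Even (J.filter (fun j => j < i)).card) := by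
  obtain ⟨i, hi⟩ := hJ
  intro h
  have h1 := sgn_even J i hi
  rw [h, sgn_odd J i hi] at h1
  have h2 : (-1 : ℝ) ^ (J.filter (fun j => j < i)).card ≠ 0 := by simp
  exact h2 (by linarith)

/-- the sum over the two circuits on `J` -/
theorem sum_circ {s : ℕ} (J : Finset (Fin s)) (i j : Fin s) (hij : i < j) (hi : i ∈ J) (hj : j ∈ J)
    (N : Finset (Finset (Fin s)))
    (hN : N = {J.filter (fun i => Even (J.filter (fun j => j < i)).card),
      J.filter (fun i => ¬ Even (J.filter (fun j => j < i)).card)}) :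
    ∑ X ∈ N, sgn X i * sgn X j =
      - 2 * ∏ k ∈ (J.erase j).erase i, (if i < k ∧ k < j then (-1 : ℝ) else 1) := by
  subst hN
  rw [Finset.sum_pair (even_ne_odd J ⟨i, hi⟩), sgn_even J i hi, sgn_even J j hj, sgn_odd J i hi,
    sgn_odd J j hj]
  have h1 : ∏ k ∈ (J.erase j).erase i, (if i < k ∧ k < j then (-1 : ℝ) else 1) =
      (-1 : ℝ) ^ (J.filter (fun k => i < k ∧ k < j)).card := by
    rw [Finset.prod_ite, Finset.prod_const, Finset.prod_const_one, mul_one]
    congr 2
    ext k
    simp only [Finset.mem_filter, Finset.mem_erase]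
    constructor
    · rintro ⟨⟨_, _, h⟩, h'⟩; exact ⟨h, h'⟩
    · rintro ⟨h, h'⟩; exact ⟨⟨h'.1.ne', h'.2.ne, h⟩, h'⟩
  have h2 : (J.filter (fun l => l < j)) =
      insert i ((J.filter (fun l => l < i)) ∪ (J.filter (fun k => i < k ∧ k < j))) := by
    ext k
    simp only [Finset.mem_filter, Finset.mem_insert, Finset.mem_union]
    constructor
    · rintro ⟨h, h'⟩
      rcases lt_trichotomy k i with h3 | h3 | h3
      · exact Or.inr (Or.inl ⟨h, h3⟩)
      · exact Or.inl h3
      · exact Or.inr (Or.inr ⟨h, h3, h'⟩)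
    · rintro (h | h | h)
      · subst h; exact ⟨hi, hij⟩
      · exact ⟨h.1, h.2.trans hij⟩
      · exact ⟨h.1, h.2.2⟩
  have h3 : (J.filter (fun l => l < j)).card =
      (J.filter (fun l => l < i)).card + (J.filter (fun k => i < k ∧ k < j)).card + 1 := by
    rw [h2, Finset.card_insert_of_notMem, Finset.card_union_of_disjoint]
    · rw [Finset.disjoint_left]
      intro k hk hk'
      exact lt_asymm (Finset.mem_filter.1 hk).2 (Finset.mem_filter.1 hk').2.1
    · simp
  rw [h1, h3]
  have h4 : ∀ a b : ℕ, (-1 : ℝ) ^ a * (-1 : ℝ) ^ (a + b + 1) = - (-1 : ℝ) ^ b := by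
    intro a b
    have : (-1 : ℝ) ^ a * (-1 : ℝ) ^ a = 1 := by rw [← mul_pow]; simp
    calc (-1 : ℝ) ^ a * (-1 : ℝ) ^ (a + b + 1) = ((-1 : ℝ) ^ a * (-1 : ℝ) ^ a) * ((-1 : ℝ) ^ b * -1) := by
          rw [pow_succ, pow_add]; ring
      _ = - (-1 : ℝ) ^ b := by rw [this]; ring
  rw [neg_mul_neg, h4]
  ring

/-- the pairs in the circuits -/
theorem pair_right {m d : ℕ} (N : Finset (Fin (m + 1)) → Finset (Finset (Fin (m + 1))))
    (hN : ∀ J : Finset (Fin (m + 1)), J.card = d + 2 → N J =
      {J.filter (fun i => Even (J.filter (fun j => j < i)).card),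
        J.filter (fun i => ¬ Even (J.filter (fun j => j < i)).card)})
    (i j : Fin (m + 1)) (hij : i < j) :
    ∑ J ∈ powersetCard (d + 2) (univ : Finset (Fin (m + 1))),
      (if i ∈ J ∧ j ∈ J then ∑ X ∈ N J, sgn X i * sgn X j else 0) =
      - 2 * ∑ K ∈ powersetCard d ((univ.erase j).erase i),
        ∏ k ∈ K, (if i < k ∧ k < j then (-1 : ℝ) else 1) := by
  rw [← Finset.sum_filter, Finset.mul_sum]
  refine Finset.sum_nbij' (fun J => (J.erase j).erase i) (fun K => insert j (insert i K))
    ?_ ?_ ?_ ?_ ?_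
  · intro J hJ
    simp only [Finset.mem_filter, Finset.mem_powersetCard] at hJ
    obtain ⟨⟨_, h1⟩, h2, h3⟩ := hJ
    rw [Finset.mem_powersetCard]
    refine ⟨Finset.erase_subset_erase _ (Finset.erase_subset_erase _ (Finset.subset_univ _)), ?_⟩
    rw [Finset.card_erase_of_mem (Finset.mem_erase.2 ⟨hij.ne, h2⟩), Finset.card_erase_of_mem h3, h1]
    rfl
  · intro K hK
    rw [Finset.mem_powersetCard] at hK
    obtain ⟨h1, h2⟩ := hK
    have hiK : i ∉ K := fun h => (Finset.mem_erase.1 (h1 h)).1 rfl
    have hjK : j ∉ K := fun h => (Finset.mem_erase.1 (Finset.mem_erase.1 (h1 h)).2).1 rfl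
    have hjK' : j ∉ insert i K := by
      rw [Finset.mem_insert]; rintro (h | h)
      · exact hij.ne' h
      · exact hjK h
    simp only [Finset.mem_filter, Finset.mem_powersetCard]
    refine ⟨⟨Finset.subset_univ _, ?_⟩, by simp, by simp⟩
    rw [Finset.card_insert_of_notMem hjK', Finset.card_insert_of_notMem hiK, h2]
  · intro J hJ
    simp only [Finset.mem_filter, Finset.mem_powersetCard] at hJ
    obtain ⟨⟨_, h1⟩, h2, h3⟩ := hJ
    show insert j (insert i ((J.erase j).erase i)) = J
    rw [Finset.insert_erase (Finset.mem_erase.2 ⟨hij.ne, h2⟩), Finset.insert_erase h3]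
  · intro K hK
    rw [Finset.mem_powersetCard] at hK
    obtain ⟨h1, h2⟩ := hK
    have hiK : i ∉ K := fun h => (Finset.mem_erase.1 (h1 h)).1 rfl
    have hjK : j ∉ K := fun h => (Finset.mem_erase.1 (Finset.mem_erase.1 (h1 h)).2).1 rfl
    have hjK' : j ∉ insert i K := by
      rw [Finset.mem_insert]; rintro (h | h)
      · exact hij.ne' h
      · exact hjK h
    show ((insert j (insert i K)).erase j).erase i = K
    rw [Finset.erase_insert hjK', Finset.erase_insert hiK]
  · intro J hJ
    simp only [Finset.mem_filter, Finset.mem_powersetCard] at hJ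
    obtain ⟨⟨_, h1⟩, h2, h3⟩ := hJ
    exact sum_circ J i j hij h2 h3 (N J) (hN J h1)

theorem sum_sgn {s : ℕ} (J X : Finset (Fin s)) (hX : X ⊆ J) :
    ∑ i ∈ J, sgn X i = 2 * (X.card : ℝ) - J.card := by
  have h : ∀ i, sgn X i = 2 * (if i ∈ X then (1 : ℝ) else 0) - 1 := by
    intro i; unfold sgn; split_ifs <;> norm_num
  simp only [h]
  rw [Finset.sum_sub_distrib, ← Finset.mul_sum, Finset.sum_ite_mem, Finset.inter_eq_right.2 hX]
  simp

theorem sq_sgn {s : ℕ} (J X : Finset (Fin s)) (hX : X ⊆ J) (n : ℝ) (hn : n = J.card) :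
    (n - 2 * (X.card : ℝ)) ^ 2 = ∑ i ∈ J, ∑ j ∈ J, sgn X i * sgn X j := by
  rw [← Finset.sum_mul_sum, sum_sgn J X hX, hn]; ring

theorem prod_sgn {m : ℕ} (hm : Even (m + 1)) (T : Finset (Fin (m + 1))) :
    (-1 : ℝ) ^ T.card = ∏ c ∈ chg T, (if Even c.val then (-1 : ℝ) else 1) := by
  have h1 : (∏ i : Fin (m + 1), sgn T i) * (-1 : ℝ) ^ T.card = 1 := by
    have h2 : (-1 : ℝ) ^ T.card = ∏ i : Fin (m + 1), (if i ∈ T then (-1 : ℝ) else 1) := by
      rw [Finset.prod_ite_mem, Finset.univ_inter, Finset.prod_const]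
    rw [h2, ← Finset.prod_mul_distrib]
    have h3 : ∀ i, sgn T i * (if i ∈ T then (-1 : ℝ) else 1) = -1 := by
      intro i; unfold sgn; split_ifs <;> norm_num
    simp only [h3, Finset.prod_const, Finset.card_univ, Fintype.card_fin]
    exact hm.neg_one_pow
  have h4 : (-1 : ℝ) ^ T.card * (-1 : ℝ) ^ T.card = 1 := by rw [← mul_pow]; simp
  have h5 : (-1 : ℝ) ^ T.card = ∏ i : Fin (m + 1), sgn T i := by
    calc (-1 : ℝ) ^ T.card = ((∏ i : Fin (m + 1), sgn T i) * (-1 : ℝ) ^ T.card) * (-1 : ℝ) ^ T.card := by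
          rw [h1, one_mul]
      _ = _ := by rw [mul_assoc, h4, mul_one]
  rw [h5]
  have h6 : ∏ i : Fin (m + 1), sgn T i = ∏ i : Fin (m + 1), (sgn T 0 * ∏ c : Fin m,
      (if c.castSucc < i then (if c ∈ chg T then (-1 : ℝ) else 1) else 1)) :=
    Finset.prod_congr rfl fun i _ => prefix_prod T i
  rw [h6, Finset.prod_mul_distrib, Finset.prod_const, Finset.prod_comm]
  have h7 : sgn T 0 ^ (univ : Finset (Fin (m + 1))).card = 1 := by
    rw [Finset.card_univ, Fintype.card_fin]
    have h70 : ∀ (n : ℕ), Even n → sgn T 0 ^ n = 1 := by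
      rintro n ⟨k, hk⟩
      rw [hk, pow_add, ← mul_pow, sgn_sq, one_pow]
    exact h70 _ hm
  rw [h7, one_mul]
  have h8 : ∏ c ∈ chg T, (if Even c.val then (-1 : ℝ) else 1) =
      ∏ c : Fin m, (if c ∈ chg T then (if Even c.val then (-1 : ℝ) else 1) else 1) := by
    rw [Finset.prod_ite_mem, Finset.univ_inter]
  rw [h8]
  refine Finset.prod_congr rfl fun c _ => ?_
  by_cases hc : c ∈ chg T
  · simp only [hc, if_true]
    rw [← Finset.prod_filter, Finset.prod_const]
    have h9 : (univ.filter (fun i : Fin (m + 1) => c.castSucc < i)).card = m - c.val := by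
      have : univ.filter (fun i : Fin (m + 1) => c.castSucc < i) = Finset.Ioi c.castSucc := by
        ext i; simp
      rw [this, Fin.card_Ioi]
      simp
    rw [h9]
    have hcm := c.isLt
    by_cases he : Even c.val
    · rw [if_pos he]
      have : Odd (m - c.val) := by
        rw [Nat.even_add_one] at hm
        rcases he with ⟨a, ha⟩
        rcases Nat.not_even_iff_odd.1 hm with ⟨b, hb⟩
        exact ⟨b - a, by omega⟩
      exact this.neg_one_pow
    · rw [if_neg he]
      have : Even (m - c.val) := by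
        rw [Nat.even_add_one] at hm
        rcases Nat.not_even_iff_odd.1 he with ⟨a, ha⟩
        rcases Nat.not_even_iff_odd.1 hm with ⟨b, hb⟩
        exact ⟨b - a, by omega⟩
      exact this.neg_one_pow
  · simp [hc]

theorem alt_zero {n d : ℕ} (hn : Even (n + 1 + 1)) (hd : Odd d) :
    ∑ C ∈ powersetCard d ((univ : Finset (Fin (n + 1))).erase 0),
      ∏ c ∈ C, (if Even c.val then (-1 : ℝ) else 1) = 0 := by
  have hmap : ((univ : Finset (Fin (n + 1))).erase 0) =
      ((univ : Finset (Fin (n + 1))).erase 0).map (Equiv.neg (Fin (n + 1))).toEmbedding := by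
    ext k
    simp only [Finset.mem_erase, Finset.mem_univ, and_true, Finset.mem_map, Equiv.coe_toEmbedding,
      Equiv.neg_apply]
    constructor
    · intro h; exact ⟨-k, neg_ne_zero.2 h, neg_neg k⟩
    · rintro ⟨c, h, rfl⟩; exact neg_ne_zero.2 h
  have h1 : ∑ C ∈ powersetCard d ((univ : Finset (Fin (n + 1))).erase 0),
      ∏ c ∈ C, (if Even c.val then (-1 : ℝ) else 1) =
      - ∑ C ∈ powersetCard d ((univ : Finset (Fin (n + 1))).erase 0),
      ∏ c ∈ C, (if Even c.val then (-1 : ℝ) else 1) := by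
    conv_lhs => rw [hmap]
    rw [Finset.powersetCard_map, Finset.sum_map, ← Finset.sum_neg_distrib]
    refine Finset.sum_congr rfl fun C hC => ?_
    rw [Finset.mem_powersetCard] at hC
    simp only [RelEmbedding.coe_toEmbedding, Finset.mapEmbedding_apply, Finset.prod_map,
      Equiv.coe_toEmbedding, Equiv.neg_apply]
    have h2 : ∀ c ∈ C, (if Even (-c).val then (-1 : ℝ) else 1) =
        (-1) * (if Even c.val then (-1 : ℝ) else 1) := by
      intro c hc
      have h0 : c ≠ 0 := (Finset.mem_erase.1 (hC.1 hc)).1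
      have h0' : c.val ≠ 0 := fun h => h0 (by ext; simpa using h)
      have hv : (-c).val = n + 1 - c.val := by
        rw [Fin.val_neg, if_neg h0]
      have hlt := c.isLt
      rw [hv]
      rcases hn with ⟨b, hb⟩
      by_cases he : Even c.val
      · have : ¬ Even (n + 1 - c.val) := by
          rcases he with ⟨a, ha⟩
          rw [Nat.not_even_iff_odd]
          exact ⟨b - 1 - a, by omega⟩
        simp [he, this]
      · have : Even (n + 1 - c.val) := by
          rcases Nat.not_even_iff_odd.1 he with ⟨a, ha⟩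
          exact ⟨b - 1 - a, by omega⟩
        simp [he, this]
    rw [Finset.prod_congr rfl h2, Finset.prod_mul_distrib, Finset.prod_const, hC.2,
      hd.neg_one_pow, neg_one_mul]
  linarith

end CNT

open CNT in
theorem p_CNT : S_CNT := by
  intro m d hd hS hN
  have ha : (((NS (lift (mom (m + 1) d)) univ).card : ℝ) = 2 * tau (m + 1) d) := by
    have h := sum_NS hS (fun _ => (1 : ℝ)) (fun _ => 1) (fun _ => rfl)
    rw [Finset.sum_const, nsmul_eq_mul, mul_one] at h
    rw [h, count]
  refine ⟨ha, ?_, ?_⟩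
  · intro hm ho
    rw [sum_NS hS _ (fun C => ∏ c ∈ C, (if Even c.val then (-1 : ℝ) else 1))
      (fun T => prod_sgn hm T)]
    obtain ⟨n, rfl⟩ : ∃ n, m = n + 1 := ⟨m - 1, by rcases hm with ⟨a, ha⟩; omega⟩
    rw [tail _ 0 (by simp), alt_zero hm ho]
    simp
  · -- pairs
    set V := lift (mom (m + 1) d) with hV
    have h1 : ∑ T ∈ NS V univ, (((m + 1 : ℕ) : ℝ) - 2 * T.card) ^ 2 =
        ∑ i, ∑ j, ∑ T ∈ NS V univ, sgn T i * sgn T j := by
      have : ∀ T ∈ NS V univ, (((m + 1 : ℕ) : ℝ) - 2 * T.card) ^ 2 =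
          ∑ i, ∑ j, sgn T i * sgn T j :=
        fun T _ => sq_sgn univ T (Finset.subset_univ _) _ (by simp)
      rw [Finset.sum_congr rfl this, Finset.sum_comm]
      refine Finset.sum_congr rfl fun i _ => ?_
      rw [Finset.sum_comm]
    have h2 : ∑ J ∈ powersetCard (d + 2) (univ : Finset (Fin (m + 1))),
        ∑ T ∈ NS V J, ((d : ℝ) + 2 - 2 * T.card) ^ 2 =
        ∑ i, ∑ j, ∑ J ∈ powersetCard (d + 2) (univ : Finset (Fin (m + 1))),
          (if i ∈ J ∧ j ∈ J then ∑ X ∈ NS V J, sgn X i * sgn X j else 0) := by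
      have h3 : ∀ J ∈ powersetCard (d + 2) (univ : Finset (Fin (m + 1))),
          ∑ T ∈ NS V J, ((d : ℝ) + 2 - 2 * T.card) ^ 2 =
          ∑ i, ∑ j, (if i ∈ J ∧ j ∈ J then ∑ X ∈ NS V J, sgn X i * sgn X j else 0) := by
        intro J hJ
        have hJc := (Finset.mem_powersetCard.1 hJ).2
        have h4 : ∀ T ∈ NS V J, ((d : ℝ) + 2 - 2 * T.card) ^ 2 =
            ∑ i ∈ J, ∑ j ∈ J, sgn T i * sgn T j := fun T hT =>
          sq_sgn J T (Finset.mem_powerset.1 (Finset.mem_filter.1 hT).1) _ (by rw [hJc]; push_cast; ring)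
        rw [Finset.sum_congr rfl h4, Finset.sum_comm]
        have h5 : ∑ i, ∑ j, (if i ∈ J ∧ j ∈ J then ∑ X ∈ NS V J, sgn X i * sgn X j else 0) =
            ∑ i ∈ J, ∑ j ∈ J, ∑ X ∈ NS V J, sgn X i * sgn X j := by
          rw [← Finset.sum_subset (Finset.subset_univ J)
            (fun i _ hi => by simp [hi])]
          refine Finset.sum_congr rfl fun i hi => ?_
          rw [← Finset.sum_subset (Finset.subset_univ J) (fun j _ hj => by simp [hj])]
          exact Finset.sum_congr rfl fun j hj => by simp [hi, hj]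
        rw [h5]
        refine Finset.sum_congr rfl fun i _ => ?_
        rw [Finset.sum_comm]
      rw [Finset.sum_congr rfl h3, Finset.sum_comm]
      refine Finset.sum_congr rfl fun i _ => ?_
      rw [Finset.sum_comm]
    rw [h1, h2, ← Finset.sum_sub_distrib]
    simp only [← Finset.sum_sub_distrib]
    have hoff : ∀ i j : Fin (m + 1), i < j → ∑ T ∈ NS V univ, sgn T i * sgn T j -
        ∑ J ∈ powersetCard (d + 2) (univ : Finset (Fin (m + 1))),
          (if i ∈ J ∧ j ∈ J then ∑ X ∈ NS V J, sgn X i * sgn X j else 0) = 0 := by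
      intro i j hij
      rw [pair_left hS i j hij, pair_right (NS V) hN i j hij, sub_self]
    have hdiag : ∀ i : Fin (m + 1), ∑ j, (∑ T ∈ NS V univ, sgn T i * sgn T j -
        ∑ J ∈ powersetCard (d + 2) (univ : Finset (Fin (m + 1))),
          (if i ∈ J ∧ j ∈ J then ∑ X ∈ NS V J, sgn X i * sgn X j else 0)) =
        2 * tau (m + 1) d - ∑ J ∈ powersetCard (d + 2) (univ : Finset (Fin (m + 1))),
          (if i ∈ J then 2 else 0) := by
      intro i
      rw [Finset.sum_eq_single i]
      · congr 1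
        · simp only [sgn_sq, Finset.sum_const, nsmul_eq_mul, mul_one]
          exact ha
        · refine Finset.sum_congr rfl fun J hJ => ?_
          have hJc := (Finset.mem_powersetCard.1 hJ).2
          by_cases hi : i ∈ J
          · simp only [hi, and_self, if_true, sgn_sq, Finset.sum_const, nsmul_eq_mul, mul_one]
            rw [hN J hJc, Finset.card_pair (even_ne_odd J ⟨i, hi⟩)]
            norm_num
          · simp [hi]
      · intro j _ hj
        rcases lt_or_gt_of_ne hj with h | h
        · have := hoff j i h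
          refine Eq.trans ?_ this
          congr 1
          · exact Finset.sum_congr rfl fun T _ => mul_comm _ _
          · refine Finset.sum_congr rfl fun J _ => ?_
            by_cases hc : i ∈ J ∧ j ∈ J
            · rw [if_pos hc, if_pos hc.symm]
              exact Finset.sum_congr rfl fun T _ => mul_comm _ _
            · rw [if_neg hc, if_neg (fun h => hc h.symm)]
        · exact hoff i j h
      · simp
    rw [Finset.sum_congr rfl (fun i _ => hdiag i), Finset.sum_sub_distrib, Finset.sum_comm]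
    have h6 : ∀ J ∈ powersetCard (d + 2) (univ : Finset (Fin (m + 1))),
        ∑ i : Fin (m + 1), (if i ∈ J then (2 : ℝ) else 0) = 2 * (d + 2) := by
      intro J hJ
      have hJc := (Finset.mem_powersetCard.1 hJ).2
      rw [Finset.sum_ite_mem, Finset.univ_inter, Finset.sum_const, hJc, nsmul_eq_mul]
      push_cast; ring
    rw [Finset.sum_congr rfl h6, Finset.sum_const, Finset.sum_const, Finset.card_powersetCard,
      Finset.card_univ, Fintype.card_fin, nsmul_eq_mul, nsmul_eq_mul]
    ring

end Pool.Agent.Run7.h62.RV
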