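import Pool.Agent.Run7.h62.RV.Iface

/-! Piece `INV` of the project of helper62 (MP_620441_co): the path argument. -/

set_option autoImplicit false

namespace Pool.Agent.Run7.h62.RV

open Finset Filter Topology

open scoped Classical

namespace INV

/-! ### The jumps vanish -/

theorem jump_eq {s d : ℕ} (α β : ℕ → ℝ) (hα : Symm s α) (hβ : Symm (d + 2) β)
    (hb : Balanced s d α β) (a e : ℕ) (ha : 1 ≤ a) (ha' : a ≤ d) (he : e + d + 1 ≤ s) :
    Jump α β s d a e = Jump α β s d a (s - d - 1 - e) := by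
  unfold Jump
  have h1 : β (d + 1 - a) = β (a + 1) := by
    have := hβ (a + 1) (by omega)
    rwa [show d + 2 - (a + 1) = d + 1 - a by omega] at this
  have h2 : β (d + 2 - a) = β a := hβ a (by omega)
  have h3 : α (s - (a + (s - d - 1 - e))) = α (a + (s - d - 1 - e)) := hα _ (by omega)
  have h4 : s - d - 1 - (s - d - 1 - e) = e := by omega
  have h5 : α (s - (a + e)) = α (a + e) := hα _ (by omega)
  rw [h4, h1, h2, h3, h5]
  have h6 := hb a e ha ha' he
  have h7 : ((s - d - 1 - e : ℕ) : ℝ) = (s : ℝ) - d - 1 - e := by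
    rw [Nat.cast_sub (by omega), Nat.cast_sub (by omega), Nat.cast_sub (by omega)]
    push_cast; ring
  rw [h7]
  have h8 : α (a + (s - d - 1 - e)) = α (a + e) - ((s : ℝ) - d - 1 - 2 * e) * (β (a + 1) - β a) := by
    linarith
  rw [h8]
  ring

theorem local_sd (hLOC : S_LOC) (hDATA : S_DATA) {s d : ℕ} (hs : d + 2 ≤ s) (α β : ℕ → ℝ)
    (hα : Symm s α) (hβ : Symm (d + 2) β) (hb : Balanced s d α β) (w : Fin s → Pt d)
    (B : Finset (Fin s)) (hB : SD (lift w) B) :
    ∃ c : ℝ, ∀ᶠ w' in 𝓝 (lift w), Gen w' → Phi α β w' = c := by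
  obtain ⟨L, E, hD⟩ := hDATA s d (lift w) B hs hB
  obtain ⟨c, hc⟩ := hLOC s d (lift w) B L E hs hB hD α β
  obtain ⟨hL, hE, ⟨x, hx1, hx2, hx3⟩, -⟩ := hD
  have hsum : ∑ b ∈ B, x b = 0 := by
    have h1 : ∑ j, x j = 0 := by
      have := congrArg Prod.fst hx3
      simpa [lift, Prod.fst_sum] using this
    rw [← h1]
    exact Finset.sum_subset (Finset.subset_univ _) (fun j _ hj => hx2 j hj)
  have hBne : B.Nonempty := by
    rw [← Finset.card_pos, hB.1]; omega
  have hL1 : 1 ≤ L.card := by
    rw [Nat.one_le_iff_ne_zero]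
    intro h0
    have h0' : L = ∅ := Finset.card_eq_zero.1 h0
    have : ∑ b ∈ B, x b < 0 := by
      have h2 : ∑ b ∈ B, x b < ∑ b ∈ B, (0 : ℝ) := by
        refine Finset.sum_lt_sum_of_nonempty hBne fun b hb' => ?_
        have := hx1 b hb'
        unfold sgn at this
        rw [h0'] at this
        simp at this
        exact this
      simpa using h2
    linarith
  have hL2 : L.card ≤ d := by
    by_contra hcon
    have h1 : L = B := Finset.eq_of_subset_of_card_le hL (by rw [hB.1]; omega)
    have : 0 < ∑ b ∈ B, x b := by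
      refine Finset.sum_pos (fun b hb' => ?_) hBne
      have := hx1 b hb'
      unfold sgn at this
      rw [h1, if_pos hb', one_mul] at this
      exact this
    linarith
  have hBc : (Bᶜ).card = s - d - 1 := by
    rw [Finset.card_compl, Fintype.card_fin, hB.1]; omega
  have hE1 : E.card ≤ s - d - 1 := hBc ▸ Finset.card_le_card hE
  have hE2 : (Bᶜ \ E).card = s - d - 1 - E.card := by
    rw [Finset.card_sdiff_of_subset hE, hBc]
  refine ⟨c + Jump α β s d L.card E.card, hc.mono fun w' hw' hG => ?_⟩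
  rcases hw' hG with h | h
  · exact h.2
  · rw [h.2, hE2, ← jump_eq α β hα hβ hb L.card E.card hL1 hL2 (by omega)]

/-! ### Functionals -/

theorem exists_ne {d : ℕ} (D : VS d →ₗ[ℝ] ℝ) (hD : D ≠ 0) : ∃ y : Pt d, D (1, y) ≠ 0 := by
  by_contra hcon
  push Not at hcon
  apply hD
  ext x
  · have := hcon 0
    simpa using this
  · have h1 := hcon x
    have h2 := hcon 0
    have h3 : D (0, x) = D (1, x) - D (1, 0) := by
      rw [← map_sub]; simp
    rw [h1, h2, sub_zero] at h3
    simpa using h3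

theorem avoid {d : ℕ} {ι : Type} (F : Finset ι) (D : ι → (VS d →ₗ[ℝ] ℝ)) (hD : ∀ k ∈ F, D k ≠ 0)
    (U : Set (Pt d)) (hU : IsOpen U) (hne : U.Nonempty) :
    ∃ y ∈ U, ∀ k ∈ F, D k (1, y) ≠ 0 := by
  induction F using Finset.induction_on generalizing U with
  | empty => obtain ⟨y, hy⟩ := hne; exact ⟨y, hy, by simp⟩
  | insert k F hk ih =>
    have hcont : Continuous (fun y : Pt d => D k (1, y)) := by
      have h1 : Continuous (D k) := LinearMap.continuous_of_finiteDimensional _
      exact h1.comp (continuous_const.prodMk continuous_id)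
    have hopen : IsOpen (U ∩ {y | D k (1, y) ≠ 0}) :=
      hU.inter (isOpen_ne_fun hcont continuous_const)
    have hne' : (U ∩ {y | D k (1, y) ≠ 0}).Nonempty := by
      obtain ⟨y0, hy0⟩ := hne
      by_cases h0 : D k (1, y0) ≠ 0
      · exact ⟨y0, hy0, h0⟩
      · push Not at h0
        obtain ⟨y1, hy1⟩ := exists_ne (D k) (hD k (Finset.mem_insert_self _ _))
        have hc2 : Continuous (fun t : ℝ => y0 + t • (y1 - y0)) := by fun_prop
        have h2 : ∀ᶠ t in 𝓝 (0 : ℝ), y0 + t • (y1 - y0) ∈ U := by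
          have := hc2.tendsto 0
          refine this.eventually ?_
          simpa using hU.mem_nhds hy0
        have h3 : ∀ᶠ t in 𝓝[≠] (0 : ℝ), y0 + t • (y1 - y0) ∈ U := h2.filter_mono nhdsWithin_le_nhds
        obtain ⟨t, ht1, ht2⟩ := (h3.and self_mem_nhdsWithin).exists
        refine ⟨_, ht1, ?_⟩
        have h4 : ((1 : ℝ), y0 + t • (y1 - y0)) = (1 - t) • ((1 : ℝ), y0) + t • ((1 : ℝ), y1) := by
          ext
          · simp
          · simp; ring
        show D k (1, y0 + t • (y1 - y0)) ≠ 0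
        rw [h4, map_add, map_smul, map_smul, h0, smul_zero, zero_add, smul_eq_mul]
        exact mul_ne_zero ht2 hy1
    obtain ⟨y, hy, hy'⟩ := ih (fun k hk => hD k (Finset.mem_insert_of_mem hk)) _ hopen hne'
    refine ⟨y, hy.1, fun l hl => ?_⟩
    rcases Finset.mem_insert.1 hl with h | h
    · subst h; exact hy.2
    · exact hy' l h

theorem finrank_VS (d : ℕ) : Module.finrank ℝ (VS d) = d + 1 := by
  simp [VS, add_comm]

/-- a functional which vanishes on `d + 1` independent vectors is zero -/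
theorem zero_of_basis {s d : ℕ} (v : Fin s → VS d) (A : Finset (Fin s)) (hA : A.card = d + 1)
    (hLI : LinearIndependent ℝ (fun i : A => v i)) (D : VS d →ₗ[ℝ] ℝ) (hD : ∀ i ∈ A, D (v i) = 0) :
    D = 0 := by
  have hspan : Submodule.span ℝ (Set.range (fun i : A => v i)) = ⊤ :=
    hLI.span_eq_top_of_card_eq_finrank' (by rw [finrank_VS, Fintype.card_coe, hA])
  refine LinearMap.ext_on_range hspan fun i => ?_
  simpa using hD i i.2

/-- a nonzero functional which vanishes on `d` vectors -/
theorem exists_functional {s d : ℕ} (v : Fin s → VS d) (A : Finset (Fin s)) (hA : A.card ≤ d) :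
    ∃ D : VS d →ₗ[ℝ] ℝ, D ≠ 0 ∧ ∀ i ∈ A, D (v i) = 0 := by
  have hlt : Submodule.span ℝ (Set.range (fun i : A => v i)) < ⊤ := by
    rw [lt_top_iff_ne_top]
    intro htop
    have h1 := finrank_range_le_card (R := ℝ) (fun i : A => v i)
    rw [Set.finrank, htop, finrank_top, finrank_VS, Fintype.card_coe] at h1
    omega
  obtain ⟨D, hD, hD'⟩ := Submodule.exists_le_ker_of_lt_top _ hlt
  exact ⟨D, hD, fun i hi => hD' (Submodule.subset_span ⟨⟨i, hi⟩, rfl⟩)⟩

theorem li_mono {s d : ℕ} (v : Fin s → VS d) (A A' : Finset (Fin s)) (h : A ⊆ A')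
    (hLI : LinearIndependent ℝ (fun i : A' => v i)) : LinearIndependent ℝ (fun i : A => v i) := by
  have h1 : LinearIndepOn ℝ v (A' : Set (Fin s)) := hLI
  exact h1.mono (by exact_mod_cast h)

theorem li_congr {s d : ℕ} (v v' : Fin s → VS d) (A : Finset (Fin s)) (h : ∀ i ∈ A, v i = v' i)
    (hLI : LinearIndependent ℝ (fun i : A => v i)) : LinearIndependent ℝ (fun i : A => v' i) := by
  have : (fun i : A => v' i) = (fun i : A => v i) := by
    funext i; exact (h i i.2).symm
  rw [this]; exact hLI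

theorem li_insert {s d : ℕ} (v : Fin s → VS d) (I : Finset (Fin s)) (m : Fin s) (hm : m ∉ I)
    (hLI : LinearIndependent ℝ (fun i : I => v i)) (D : VS d →ₗ[ℝ] ℝ) (hD : ∀ i ∈ I, D (v i) = 0)
    (hDm : D (v m) ≠ 0) : LinearIndependent ℝ (fun i : (insert m I : Finset (Fin s)) => v i) := by
  have h1 : LinearIndepOn ℝ v (I : Set (Fin s)) := hLI
  have h2 : LinearIndepOn ℝ v ((insert m (I : Set (Fin s)))) := by
    rw [linearIndepOn_insert (by simpa using hm)]
    refine ⟨h1, fun h => hDm ?_⟩
    have h3 : Submodule.span ℝ (v '' (I : Set (Fin s))) ≤ LinearMap.ker D := by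
      rw [Submodule.span_le]
      rintro _ ⟨i, hi, rfl⟩
      exact hD i (by simpa using hi)
    exact h3 h
  have h3 : LinearIndepOn ℝ v (((insert m I : Finset (Fin s)) : Set (Fin s))) := by
    rw [Finset.coe_insert]; exact h2
  exact h3

/-- enlarging a set to one with `d + 1` elements -/
theorem extend {s d : ℕ} (hs : d + 2 ≤ s) (A : Finset (Fin s)) (hA : A.card ≤ d + 1) :
    ∃ A', A ⊆ A' ∧ A'.card = d + 1 := by
  obtain ⟨A', h1, h2⟩ := Finset.exists_superset_card_eq (s := A) hA (by rw [Fintype.card_fin]; omega)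
  exact ⟨A', h1, h2⟩

/-! ### One step -/

section step

variable {s d : ℕ}

theorem lift_update_ne (p : Fin s → Pt d) (m : Fin s) (y : Pt d) (i : Fin s) (h : i ≠ m) :
    lift (Function.update p m y) i = lift p i := by
  unfold lift; rw [Function.update_of_ne h]

theorem lift_update_self (p : Fin s → Pt d) (m : Fin s) (y : Pt d) :
    lift (Function.update p m y) m = (1, y) := by
  unfold lift; rw [Function.update_self]

/-- a set through `m` -/
theorem li_through (p : Fin s → Pt d) (hG : Gen (lift p)) (m : Fin s) (y : Pt d)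
    (I : Finset (Fin s)) (hI : I.card = d) (hm : m ∉ I) (D : VS d →ₗ[ℝ] ℝ)
    (hD : ∀ i ∈ I, D (lift p i) = 0) (hy : D (1, y) ≠ 0) :
    LinearIndependent ℝ (fun i : (insert m I : Finset (Fin s)) => lift (Function.update p m y) i) := by
  have hne : ∀ i ∈ I, i ≠ m := fun i hi h => hm (h ▸ hi)
  refine li_insert _ I m hm ?_ D ?_ ?_
  · exact li_congr (lift p) _ I (fun i hi => (lift_update_ne p m y i (hne i hi)).symm)
      (hG I (by omega))
  · intro i hi; rw [lift_update_ne p m y i (hne i hi)]; exact hD i hi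
  · rw [lift_update_self]; exact hy

/-- a set without `m` -/
theorem li_without (p : Fin s → Pt d) (hG : Gen (lift p)) (m : Fin s) (y : Pt d)
    (A : Finset (Fin s)) (hA : A.card ≤ d + 1) (hm : m ∉ A) :
    LinearIndependent ℝ (fun i : A => lift (Function.update p m y) i) := by
  have hne : ∀ i ∈ A, i ≠ m := fun i hi h => hm (h ▸ hi)
  exact li_congr (lift p) _ A (fun i hi => (lift_update_ne p m y i (hne i hi)).symm) (hG A hA)

/-- the index set of the functionals -/
def Idx (m : Fin s) (d : ℕ) : Finset (Finset (Fin s)) := powersetCard d (univ.erase m)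

theorem mem_Idx (m : Fin s) (d : ℕ) (I : Finset (Fin s)) : I ∈ Idx m d ↔ I.card = d ∧ m ∉ I := by
  unfold Idx
  rw [Finset.mem_powersetCard]
  constructor
  · rintro ⟨h1, h2⟩
    exact ⟨h2, fun h => (Finset.mem_erase.1 (h1 h)).1 rfl⟩
  · rintro ⟨h1, h2⟩
    exact ⟨fun i hi => Finset.mem_erase.2 ⟨fun h => h2 (h ▸ hi), mem_univ _⟩, h1⟩

/-- if no functional vanishes then the configuration is general -/
theorem gen_of (hs : d + 2 ≤ s) (p : Fin s → Pt d) (hG : Gen (lift p)) (m : Fin s) (y : Pt d)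
    (D : Finset (Fin s) → (VS d →ₗ[ℝ] ℝ)) (hD : ∀ I ∈ Idx m d, ∀ i ∈ I, D I (lift p i) = 0)
    (hy : ∀ I ∈ Idx m d, D I (1, y) ≠ 0) : Gen (lift (Function.update p m y)) := by
  intro A hA
  obtain ⟨A', h1, h2⟩ := extend hs A hA
  refine li_mono _ A A' h1 ?_
  by_cases hm : m ∈ A'
  · have hI : A'.erase m ∈ Idx m d := by
      rw [mem_Idx]; exact ⟨by rw [Finset.card_erase_of_mem hm, h2]; rfl, by simp⟩
    have h3 := li_through p hG m y (A'.erase m) ((mem_Idx _ _ _).1 hI).1 (by simp) (D _) (hD _ hI)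
      (hy _ hI)
    rwa [Finset.insert_erase hm] at h3
  · exact li_without p hG m y A' h2.le hm

/-- if exactly one functional vanishes then the configuration is simply degenerate -/
theorem sd_of (hs : d + 2 ≤ s) (p : Fin s → Pt d) (hG : Gen (lift p)) (m : Fin s) (y : Pt d)
    (D : Finset (Fin s) → (VS d →ₗ[ℝ] ℝ)) (hD : ∀ I ∈ Idx m d, ∀ i ∈ I, D I (lift p i) = 0)
    (I : Finset (Fin s)) (hI : I ∈ Idx m d) (hDI : D I ≠ 0) (hy0 : D I (1, y) = 0)
    (hy : ∀ I' ∈ Idx m d, I' ≠ I → D I' (1, y) ≠ 0) :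
    SD (lift (Function.update p m y)) (insert m I) := by
  obtain ⟨hIc, hmI⟩ := (mem_Idx _ _ _).1 hI
  have hcard : (insert m I).card = d + 1 := by rw [Finset.card_insert_of_notMem hmI, hIc]
  refine ⟨hcard, ?_, ?_⟩
  · intro h
    refine hDI (zero_of_basis _ (insert m I) hcard h (D I) fun i hi => ?_)
    rcases Finset.mem_insert.1 hi with h' | h'
    · rw [h', lift_update_self]; exact hy0
    · rw [lift_update_ne p m y i (fun h'' => hmI (h'' ▸ h'))]; exact hD I hI i h'
  · intro A hA hne
    have hext : ∃ A', A ⊆ A' ∧ A'.card = d + 1 ∧ A' ≠ insert m I := by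
      rcases Nat.lt_or_ge A.card (d + 1) with h | h
      · obtain ⟨q, hq⟩ : ∃ q, q ∉ insert m I := by
          by_contra hcon
          push Not at hcon
          have : (insert m I) = univ := Finset.eq_univ_iff_forall.2 hcon
          have h2 := congrArg Finset.card this
          rw [hcard, Finset.card_univ, Fintype.card_fin] at h2
          omega
        obtain ⟨A', h1, h2⟩ := extend (d := d) hs (insert q A)
          ((Finset.card_insert_le _ _).trans (by omega))
        refine ⟨A', (Finset.subset_insert _ _).trans h1, h2, fun h3 => hq ?_⟩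
        rw [← h3]; exact h1 (Finset.mem_insert_self _ _)
      · exact ⟨A, Finset.Subset.refl _, by omega, hne⟩
    obtain ⟨A', h1, h2, h3⟩ := hext
    refine li_mono _ A A' h1 ?_
    by_cases hm : m ∈ A'
    · have hI' : A'.erase m ∈ Idx m d := by
        rw [mem_Idx]; exact ⟨by rw [Finset.card_erase_of_mem hm, h2]; rfl, by simp⟩
      have hne' : A'.erase m ≠ I := by
        intro h; apply h3; rw [← h, Finset.insert_erase hm]
      have h4 := li_through p hG m y (A'.erase m) ((mem_Idx _ _ _).1 hI').1 (by simp) (D _)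
        (hD _ hI') (hy _ hI' hne')
      rwa [Finset.insert_erase hm] at h4
    · exact li_without p hG m y A' h2.le hm

theorem step (hLOC : S_LOC) (hLOCG : S_LOCG) (hDATA : S_DATA) (hs : d + 2 ≤ s) (α β : ℕ → ℝ)
    (hα : Symm s α) (hβ : Symm (d + 2) β) (hb : Balanced s d α β) (p : Fin s → Pt d)
    (hG : Gen (lift p)) (m : Fin s) (U : Set (Pt d)) (hU : IsOpen U) (hne : U.Nonempty) :
    ∃ y ∈ U, Gen (lift (Function.update p m y)) ∧
      Phi α β (lift (Function.update p m y)) = Phi α β (lift p) := by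
  -- the functionals
  have hex : ∀ I : Finset (Fin s), ∃ D : VS d →ₗ[ℝ] ℝ, I ∈ Idx m d →
      (D ≠ 0 ∧ ∀ i ∈ I, D (lift p i) = 0) := by
    intro I
    by_cases hI : I ∈ Idx m d
    · obtain ⟨D, hD⟩ := exists_functional (lift p) I ((mem_Idx _ _ _).1 hI).1.le
      exact ⟨D, fun _ => hD⟩
    · exact ⟨0, fun h => absurd h hI⟩
  choose D hD using hex
  have hD1 : ∀ I ∈ Idx m d, ∀ i ∈ I, D I (lift p i) = 0 := fun I hI => (hD I hI).2
  have hDm : ∀ I ∈ Idx m d, D I (lift p m) ≠ 0 := by
    intro I hI h0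
    obtain ⟨hIc, hmI⟩ := (mem_Idx _ _ _).1 hI
    refine (hD I hI).1 (zero_of_basis (lift p) (insert m I)
      (by rw [Finset.card_insert_of_notMem hmI, hIc]) (hG _ ?_) (D I) fun i hi => ?_)
    · rw [Finset.card_insert_of_notMem hmI, hIc]
    · rcases Finset.mem_insert.1 hi with h' | h'
      · rw [h']; exact h0
      · exact hD1 I hI i h'
  have hcomb : ∀ I ∈ Idx m d, ∀ I' ∈ Idx m d, I' ≠ I →
      D I (lift p m) • D I' - D I' (lift p m) • D I ≠ 0 := by
    intro I hI I' hI' hne' h0
    obtain ⟨hIc, hmI⟩ := (mem_Idx _ _ _).1 hI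
    obtain ⟨hIc', hmI'⟩ := (mem_Idx _ _ _).1 hI'
    -- the functional `D I` vanishes on `I ∪ I'`
    have hv : ∀ i ∈ I ∪ I', D I (lift p i) = 0 := by
      intro i hi
      rcases Finset.mem_union.1 hi with h | h
      · exact hD1 I hI i h
      · have h1 := LinearMap.congr_fun h0 (lift p i)
        simp only [LinearMap.sub_apply, LinearMap.smul_apply, smul_eq_mul, LinearMap.zero_apply,
          hD1 I' hI' i h, mul_zero, zero_sub, neg_eq_zero] at h1
        exact (mul_eq_zero.1 h1).resolve_left (hDm I' hI')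
    have hcard : d + 1 ≤ (I ∪ I').card := by
      by_contra hcon
      have h1 : I = I ∪ I' := Finset.eq_of_subset_of_card_le Finset.subset_union_left (by omega)
      have h2 : I' = I ∪ I' := Finset.eq_of_subset_of_card_le Finset.subset_union_right (by omega)
      exact hne' (h2.trans h1.symm)
    obtain ⟨A, hA1, hA2⟩ := Finset.exists_subset_card_eq hcard
    exact (hD I hI).1 (zero_of_basis (lift p) A hA2 (hG A hA2.le) (D I) fun i hi => hv i (hA1 hi))
  -- the new point
  obtain ⟨y, hyU, hy⟩ := avoid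
    ((Idx m d).image (fun I => (D I : VS d →ₗ[ℝ] ℝ)) ∪
      (((Idx m d) ×ˢ (Idx m d)).filter (fun q => q.2 ≠ q.1)).image
        (fun q => D q.1 (lift p m) • D q.2 - D q.2 (lift p m) • D q.1))
    (fun k => k) (by
      intro k hk
      rcases Finset.mem_union.1 hk with h | h
      · obtain ⟨I, hI, rfl⟩ := Finset.mem_image.1 h
        exact (hD I hI).1
      · obtain ⟨q, hq, rfl⟩ := Finset.mem_image.1 h
        rw [Finset.mem_filter, Finset.mem_product] at hq
        exact hcomb q.1 hq.1.1 q.2 hq.1.2 hq.2) U hU hne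
  have hy1 : ∀ I ∈ Idx m d, D I (1, y) ≠ 0 := fun I hI =>
    hy (D I) (Finset.mem_union_left _ (Finset.mem_image_of_mem _ hI))
  have hy2 : ∀ I ∈ Idx m d, ∀ I' ∈ Idx m d, I' ≠ I →
      D I (lift p m) * D I' (1, y) - D I' (lift p m) * D I (1, y) ≠ 0 := by
    intro I hI I' hI' h
    have := hy (D I (lift p m) • D I' - D I' (lift p m) • D I)
      (Finset.mem_union_right _ (Finset.mem_image.2 ⟨(I, I'), by
        rw [Finset.mem_filter, Finset.mem_product]; exact ⟨⟨hI, hI'⟩, h⟩, rfl⟩))
    simpa using this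
  clear hy
  -- the path
  set z : ℝ → Pt d := fun t => (1 - t) • p m + t • y with hz
  have hzc : Continuous z := by rw [hz]; fun_prop
  set γ : ℝ → (Fin s → VS d) := fun t => lift (Function.update p m (z t)) with hγ
  have hγc : Continuous γ := by
    rw [hγ]
    refine continuous_pi fun i => ?_
    unfold lift
    exact continuous_const.prodMk ((continuous_apply i).comp (continuous_const.update m hzc))
  have hDz : ∀ I t, D I (1, z t) = (1 - t) * D I (lift p m) + t * D I (1, y) := by
    intro I t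
    have h4 : ((1 : ℝ), z t) = (1 - t) • (lift p m) + t • ((1 : ℝ), y) := by
      unfold lift
      ext
      · simp
      · simp [hz]
    rw [h4, map_add, map_smul, map_smul, smul_eq_mul, smul_eq_mul]
  have htwo : ∀ I ∈ Idx m d, ∀ I' ∈ Idx m d, I' ≠ I → ∀ t, D I (1, z t) = 0 →
      D I' (1, z t) ≠ 0 := by
    intro I hI I' hI' hne' t h1 h2
    rw [hDz] at h1 h2
    have h3 := hy2 I hI I' hI' hne'
    apply h3
    have e1 : t * (D I (lift p m) * D I' (1, y) - D I' (lift p m) * D I (1, y)) = 0 := by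
      linear_combination (D I (lift p m)) * h2 - (D I' (lift p m)) * h1
    have e2 : (1 - t) * (D I (lift p m) * D I' (1, y) - D I' (lift p m) * D I (1, y)) = 0 := by
      linear_combination (- D I (1, y)) * h2 + (D I' (1, y)) * h1
    linear_combination e1 + e2
  have hgen : ∀ t, (∀ I ∈ Idx m d, D I (1, z t) ≠ 0) → Gen (γ t) := fun t ht =>
    gen_of hs p hG m (z t) D hD1 ht
  -- generic parameters
  have hdense : ∀ t₀ : ℝ, ∀ᶠ t in 𝓝[≠] t₀, Gen (γ t) := by
    intro t₀
    have h1 : ∀ᶠ t in 𝓝[≠] t₀, ∀ I ∈ Idx m d, D I (1, z t) ≠ 0 := by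
      rw [Filter.eventually_all_finset]
      intro I hI
      have hfin : Set.Finite {t : ℝ | D I (1, z t) = 0} := by
        apply Set.Subsingleton.finite
        intro t ht t' ht'
        simp only [Set.mem_ofPred_eq, hDz] at ht ht'
        by_contra hne'
        have h2 : (t - t') * D I (lift p m) = 0 := by linear_combination (-t') * ht + t * ht'
        rcases mul_eq_zero.1 h2 with h3 | h3
        · exact hne' (by linarith)
        · exact hDm I hI h3
      have h2 : {t : ℝ | D I (1, z t) = 0}ᶜ ∈ Filter.cofinite := hfin.compl_mem_cofinite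
      exact (nhdsNE_le_cofinite t₀) h2
    exact h1.mono hgen
  -- local constancy
  have hloc : ∀ t₀ : ℝ, ∃ c : ℝ, ∀ᶠ t in 𝓝 t₀, Gen (γ t) → Phi α β (γ t) = c := by
    intro t₀
    by_cases hall : ∀ I ∈ Idx m d, D I (1, z t₀) ≠ 0
    · have hG0 := hgen t₀ hall
      refine ⟨Phi α β (γ t₀), ?_⟩
      have := hLOCG s d (γ t₀) hs hG0 α β
      exact ((hγc.tendsto t₀).eventually this).mono fun t ht _ => ht.2
    · push Not at hall
      obtain ⟨I, hI, hI0⟩ := hall
      have hSD : SD (lift (Function.update p m (z t₀))) (insert m I) :=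
        sd_of hs p hG m (z t₀) D hD1 I hI (hD I hI).1 hI0
          (fun I' hI' hne' => htwo I hI I' hI' hne' t₀ hI0)
      obtain ⟨c, hc⟩ := local_sd hLOC hDATA hs α β hα hβ hb _ _ hSD
      exact ⟨c, (hγc.tendsto t₀).eventually hc⟩
  choose c hc using hloc
  have hlc : IsLocallyConstant c := by
    rw [IsLocallyConstant.iff_eventually_eq]
    intro t₀
    refine (eventually_eventually_nhds.2 (hc t₀)).mono fun t₁ ht₁ => ?_
    have h1 : ∀ᶠ t in 𝓝[≠] t₁, (Gen (γ t) → Phi α β (γ t) = c t₀) := ht₁.filter_mono nhdsWithin_le_nhds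
    have h2 : ∀ᶠ t in 𝓝[≠] t₁, (Gen (γ t) → Phi α β (γ t) = c t₁) :=
      (hc t₁).filter_mono nhdsWithin_le_nhds
    obtain ⟨t, ⟨ht1, ht2⟩, ht3⟩ := ((h1.and h2).and (hdense t₁)).exists
    rw [← ht1 ht3, ← ht2 ht3]
  have hc01 : c 0 = c 1 := hlc.apply_eq_of_preconnectedSpace 0 1
  have hγ0 : γ 0 = lift p := by
    simp [hγ, hz]
  have hγ1 : γ 1 = lift (Function.update p m y) := by
    simp [hγ, hz]
  have hG1 : Gen (lift (Function.update p m y)) := gen_of hs p hG m y D hD1 hy1
  refine ⟨y, hyU, hG1, ?_⟩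
  have h0 := (hc 0).self_of_nhds (by rw [hγ0]; exact hG)
  have h1 := (hc 1).self_of_nhds (by rw [hγ1]; exact hG1)
  rw [hγ0] at h0
  rw [hγ1] at h1
  rw [h0, h1, hc01]

end step

end INV

open INV in
theorem p_INV : S_INV := by
  intro hLOC hLOCG hDATA s d α β hd hs hα hβ hb p p' hG hG'
  have hcont : Continuous (fun q : Fin s → Pt d => lift q) := by
    refine continuous_pi fun i => ?_
    unfold lift
    exact continuous_const.prodMk (continuous_apply i)
  have h1 := (hcont.tendsto p').eventually (hLOCG s d (lift p') hs hG' α β)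
  rw [Metric.eventually_nhds_iff] at h1
  obtain ⟨ε, hε, h1⟩ := h1
  have h2 : ∀ M : Finset (Fin s), ∃ q : Fin s → Pt d, Gen (lift q) ∧
      Phi α β (lift q) = Phi α β (lift p) ∧ ∀ i ∈ M, dist (q i) (p' i) < ε := by
    intro M
    induction M using Finset.induction_on with
    | empty => exact ⟨p, hG, rfl, by simp⟩
    | insert m M hm ih =>
      obtain ⟨q, hq1, hq2, hq3⟩ := ih
      obtain ⟨y, hy1, hy2, hy3⟩ := step hLOC hLOCG hDATA hs α β hα hβ hb q hq1 m
        (Metric.ball (p' m) ε) Metric.isOpen_ball ⟨p' m, Metric.mem_ball_self hε⟩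
      refine ⟨Function.update q m y, hy2, hy3.trans hq2, fun i hi => ?_⟩
      rcases Finset.mem_insert.1 hi with h | h
      · subst h; rw [Function.update_self]; exact hy1
      · rw [Function.update_of_ne (fun h' : i = m => hm (by rw [← h']; exact h))]; exact hq3 i h
  obtain ⟨q, hq1, hq2, hq3⟩ := h2 univ
  have h3 : dist q p' < ε := (dist_pi_lt_iff hε).2 fun i => hq3 i (mem_univ _)
  rw [← hq2]
  exact (h1 h3).2

end Pool.Agent.Run7.h62.RV
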